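import Pool.Agent.Y489.GE.Stm

/-!
# Piecewise geodesic curves through the vertices of a chain
-/

set_option autoImplicit false

open Set Topology

namespace Pool.Agent.Q186.LS

open Pool.Agent.Y489.GE

/-- the projection of the line to the unit interval -/
def cl (t : ℝ) : ℝ := max 0 (min t 1)

theorem continuous_cl : Continuous cl := by
  unfold cl
  fun_prop

theorem cl_mem (t : ℝ) : cl t ∈ Icc (0 : ℝ) 1 :=
  ⟨le_max_left _ _, max_le zero_le_one (min_le_right _ _)⟩

theorem cl_of_le {t : ℝ} (h : t ≤ 0) : cl t = 0 := by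
  unfold cl
  rw [max_eq_left ((min_le_left _ _).trans h)]

theorem cl_of_ge {t : ℝ} (h : 1 ≤ t) : cl t = 1 := by
  unfold cl
  rw [min_eq_right h, max_eq_right zero_le_one]

theorem cl_of_mem {t : ℝ} (h0 : 0 ≤ t) (h1 : t ≤ 1) : cl t = t := by
  unfold cl
  rw [min_eq_left h1, max_eq_right h0]

variable {X : Type} [MetricSpace X]

/-- the piecewise geodesic curve through `w 0, ..., w n`, at the times `0, ..., n` -/
noncomputable def fill (m : X → X → ℝ → X) (w : ℕ → X) : ℕ → ℝ → X
  | 0, _ => w 0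
  | n + 1, t => if t ≤ n then fill m w n t else m (w n) (w (n + 1)) (cl (t - n))

variable {m : X → X → ℝ → X} {ρ : ℝ}

theorem fill_ge (hm : GMap X ρ m) {w : ℕ → X} {n : ℕ} (hw : ∀ i < n, dist (w i) (w (i + 1)) ≤ ρ)
    {t : ℝ} (ht : n ≤ t) : fill m w n t = w n := by
  cases n with
  | zero => rfl
  | succ n =>
    push_cast at ht
    rw [fill, if_neg (by linarith), cl_of_ge (by linarith), hm.one _ _ (hw n (by omega))]

theorem fill_le {w : ℕ → X} {n : ℕ} {t : ℝ} (ht : t ≤ 0) : fill m w n t = w 0 := by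
  induction n with
  | zero => rfl
  | succ n ih =>
    rw [fill, if_pos (ht.trans (Nat.cast_nonneg n)), ih]

theorem fill_const (hm : GMap X ρ m) (hρ : 0 ≤ ρ) (x : X) (n : ℕ) (t : ℝ) :
    fill m (fun _ => x) n t = x := by
  induction n with
  | zero => rfl
  | succ n ih =>
    rw [fill]
    split_ifs
    · exact ih
    · exact hm.self hρ x (cl_mem _)

theorem fill_congr {w w' : ℕ → X} {n : ℕ} (h : ∀ i ≤ n, w i = w' i) (t : ℝ) :
    fill m w n t = fill m w' n t := by
  induction n with
  | zero => exact h 0 le_rfl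
  | succ n ih =>
    rw [fill, fill, ih (fun i hi => h i (by omega)), h n (by omega), h (n + 1) le_rfl]

theorem fill_cont (hm : GMap X ρ m) {Y : Type} [TopologicalSpace Y] {w : Y → ℕ → X} {n : ℕ}
    (hwc : ∀ i ≤ n, Continuous fun y => w y i)
    (hw : ∀ y, ∀ i < n, dist (w y i) (w y (i + 1)) ≤ ρ) {τ : Y → ℝ} (hτ : Continuous τ) :
    Continuous fun y => fill m (w y) n (τ y) := by
  induction n with
  | zero => exact hwc 0 le_rfl
  | succ n ih =>
    have h1 := ih (fun i hi => hwc i (by omega)) (fun y i hi => hw y i (by omega))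
    simp only [fill]
    refine Continuous.if_le h1 ?_ hτ continuous_const ?_
    · have h2 : Continuous fun y => ((w y n, w y (n + 1), cl (τ y - n)) : X × X × ℝ) :=
        (hwc n (by omega)).prodMk ((hwc (n + 1) le_rfl).prodMk
          (continuous_cl.comp (hτ.sub continuous_const)))
      exact hm.cont.comp_continuous h2 fun y => ⟨hw y n (by omega), cl_mem _⟩
    · intro y hy
      rw [hy, sub_self, cl_of_le le_rfl, hm.zero _ _ (hw y n (by omega)),
        fill_ge hm (fun i hi => hw y i (by omega)) le_rfl]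

/-- the curve stays near the vertices -/
theorem fill_near (hm : GMap X ρ m) {w : ℕ → X} {n : ℕ} {δ : ℝ} (hδρ : δ ≤ ρ)
    (hw : ∀ i < n, dist (w i) (w (i + 1)) ≤ δ) {a : ℝ → X}
    (ha : ∀ i < n, ∀ t : ℝ, (i : ℝ) ≤ t → t ≤ i + 1 → dist (a t) (w i) ≤ δ) (h0 : ∀ t, t ≤ 0 → a t = w 0)
    (h1 : ∀ t : ℝ, (n : ℝ) ≤ t → a t = w n) (hδ : 0 ≤ δ) (t : ℝ) (ht : t ≤ n) :
    dist (a t) (fill m w n t) ≤ 2 * δ := by
  have key : ∀ k ≤ n, ∀ t : ℝ, t ≤ k → dist (a t) (fill m w k t) ≤ 2 * δ := by
    intro k
    induction k with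
    | zero =>
      intro _ t ht
      rw [fill, h0 t (by simpa using ht), dist_self]
      linarith
    | succ k ih =>
      intro hk t ht
      rw [fill]
      split_ifs with h
      · exact ih (by omega) t h
      · push_cast at ht
        have h2 := ha k (by omega) t (by linarith) ht
        have hwk := hw k (by omega)
        have h3 := hm.dist_left (hwk.trans hδρ) (cl_mem (t - k))
        have h4 : cl (t - k) * dist (w k) (w (k + 1)) ≤ 1 * δ :=
          mul_le_mul (cl_mem _).2 hwk dist_nonneg zero_le_one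
        calc dist (a t) (m (w k) (w (k + 1)) (cl (t - k)))
            ≤ dist (a t) (w k) + dist (w k) (m (w k) (w (k + 1)) (cl (t - k))) :=
              dist_triangle _ _ _
          _ ≤ 2 * δ := by rw [h3]; linarith
  exact key n le_rfl t ht

end Pool.Agent.Q186.LS
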