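import Pool.Agent.Q186.LS.Path
import Pool.Agent.Q186.CA.Main

/-!
# Short periodic geodesics from essential maps of spaces covered by two sets
-/

set_option autoImplicit false

open Set Topology unitInterval

namespace Pool.Agent.Q186.LS

open Pool.Agent.Y489.GE

/-- On the set `U` the map `F` can be contracted to the point `p` by a homotopy all tracks of which
are curves of length at most `ℓ` (of speed at most `ℓ` on the unit interval). -/
def Contracts {Z X : Type} [TopologicalSpace Z] [MetricSpace X] (F : Z → X) (U : Set Z) (p : X)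
    (ℓ : ℝ) : Prop :=
  ∃ h : Z → ℝ → X, ContinuousOn (fun z : Z × ℝ => h z.1 z.2) (U ×ˢ Icc (0 : ℝ) 1) ∧
    ∀ z ∈ U, h z 0 = F z ∧ h z 1 = p ∧
      ∀ s ∈ Icc (0 : ℝ) 1, ∀ t ∈ Icc (0 : ℝ) 1, dist (h z s) (h z t) ≤ ℓ * |s - t|

theorem cl_dist (s t : ℝ) : |cl s - cl t| ≤ |s - t| := by
  unfold cl
  rw [max_comm 0, max_comm 0]
  refine (abs_max_sub_max_le_abs _ _ _).trans ((abs_min_sub_min_le_max s 1 t 1).trans ?_)
  rw [sub_self, abs_zero]
  exact max_le le_rfl (abs_nonneg _)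

theorem homotopic_of {Z X : Type} [TopologicalSpace Z] [TopologicalSpace X] {f g : C(Z, X)}
    (H : Z → ℝ → X) (hc : ContinuousOn (fun z : Z × ℝ => H z.1 z.2) (univ ×ˢ Icc (0 : ℝ) 1))
    (h0 : ∀ z, H z 0 = f z) (h1 : ∀ z, H z 1 = g z) : f.Homotopic g := by
  refine ⟨⟨⟨fun x => H x.2 (x.1 : ℝ), ?_⟩, fun z => ?_, fun z => ?_⟩⟩
  · have h2 : Continuous fun x : I × Z => ((x.2, (x.1 : ℝ)) : Z × ℝ) :=
      continuous_snd.prodMk (continuous_subtype_val.comp continuous_fst)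
    exact hc.comp_continuous h2 fun x => ⟨mem_univ _, x.1.2⟩
  · simpa using h0 z
  · simpa using h1 z

section

variable {Z X : Type} [TopologicalSpace Z] [MetricSpace X] {F : Z → X} {U V : Set Z} {p q : X}
  {ℓ₁ ℓ₂ κ : ℝ} {h₁ h₂ : Z → ℝ → X}

/-- the path from `p` to `q` through `F z` -/
noncomputable def pa (h₁ h₂ : Z → ℝ → X) (κ : ℝ) (z : Z) (t : ℝ) : X :=
  if t ≤ κ then h₁ z (1 - cl (t / κ)) else h₂ z (cl ((t - κ) / (1 - κ)))

theorem cl'_mem (t : ℝ) : 1 - cl t ∈ Icc (0 : ℝ) 1 :=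
  ⟨by linarith [(cl_mem t).2], by linarith [(cl_mem t).1]⟩

theorem pa_zero (hκ0 : 0 < κ) {z : Z} (h : h₁ z 1 = p) {t : ℝ} (ht : t ≤ 0) : pa h₁ h₂ κ z t = p := by
  rw [pa, if_pos (by linarith), cl_of_le (div_nonpos_of_nonpos_of_nonneg ht hκ0.le), sub_zero, h]

theorem pa_one (hκ1 : κ < 1) {z : Z} (h : h₂ z 1 = q) {t : ℝ} (ht : 1 ≤ t) : pa h₁ h₂ κ z t = q := by
  rw [pa, if_neg (by linarith), cl_of_ge ((one_le_div (by linarith)).2 (by linarith)), h]

theorem pa_lip (hκ0 : 0 < κ) (hκ1 : κ < 1) {ℓ : ℝ} (h1 : ℓ₁ = κ * ℓ) (h2 : ℓ₂ = (1 - κ) * ℓ)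
    (hℓ : 0 ≤ ℓ) {z : Z} (h10 : h₁ z 0 = F z) (h20 : h₂ z 0 = F z)
    (hL1 : ∀ s ∈ Icc (0 : ℝ) 1, ∀ t ∈ Icc (0 : ℝ) 1, dist (h₁ z s) (h₁ z t) ≤ ℓ₁ * |s - t|)
    (hL2 : ∀ s ∈ Icc (0 : ℝ) 1, ∀ t ∈ Icc (0 : ℝ) 1, dist (h₂ z s) (h₂ z t) ≤ ℓ₂ * |s - t|)
    (s t : ℝ) : dist (pa h₁ h₂ κ z s) (pa h₁ h₂ κ z t) ≤ ℓ * |s - t| := by
  have hκ' : 0 < 1 - κ := by linarith
  have e1 : ∀ s t : ℝ, dist (h₁ z (1 - cl (s / κ))) (h₁ z (1 - cl (t / κ))) ≤ ℓ * |s - t| := by
    intro s t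
    refine (hL1 _ (cl'_mem _) _ (cl'_mem _)).trans ?_
    have e : |1 - cl (s / κ) - (1 - cl (t / κ))| ≤ |s - t| / κ := by
      rw [sub_sub_sub_cancel_left, abs_sub_comm]
      refine (cl_dist _ _).trans (le_of_eq ?_)
      rw [← sub_div, abs_div, abs_of_pos hκ0]
    calc ℓ₁ * |1 - cl (s / κ) - (1 - cl (t / κ))| ≤ ℓ₁ * (|s - t| / κ) := by
          refine mul_le_mul_of_nonneg_left e ?_
          rw [h1]
          positivity
      _ = ℓ * |s - t| := by
          rw [h1]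
          field_simp
  have e2 : ∀ s t : ℝ, dist (h₂ z (cl ((s - κ) / (1 - κ)))) (h₂ z (cl ((t - κ) / (1 - κ)))) ≤
      ℓ * |s - t| := by
    intro s t
    refine (hL2 _ (cl_mem _) _ (cl_mem _)).trans ?_
    have e : |cl ((s - κ) / (1 - κ)) - cl ((t - κ) / (1 - κ))| ≤ |s - t| / (1 - κ) := by
      refine (cl_dist _ _).trans (le_of_eq ?_)
      rw [← sub_div, abs_div, abs_of_pos hκ', sub_sub_sub_cancel_right]
    calc ℓ₂ * |cl ((s - κ) / (1 - κ)) - cl ((t - κ) / (1 - κ))| ≤ ℓ₂ * (|s - t| / (1 - κ)) := by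
          refine mul_le_mul_of_nonneg_left e ?_
          rw [h2]
          positivity
      _ = ℓ * |s - t| := by
          rw [h2]
          field_simp
  have e3 : h₁ z (1 - cl (κ / κ)) = h₂ z (cl ((κ - κ) / (1 - κ))) := by
    rw [div_self hκ0.ne', cl_of_ge le_rfl, sub_self, h10, sub_self, zero_div, cl_of_le le_rfl, h20]
  have e4 : ∀ s t : ℝ, s ≤ κ → κ < t →
      dist (h₁ z (1 - cl (s / κ))) (h₂ z (cl ((t - κ) / (1 - κ)))) ≤ ℓ * |s - t| := by
    intro s t hs ht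
    refine (dist_triangle _ (h₁ z (1 - cl (κ / κ))) _).trans ?_
    have e5 := e1 s κ
    have e6 := e2 κ t
    rw [← e3] at e6
    rw [abs_sub_comm, abs_of_nonneg (by linarith)] at e5 e6
    rw [abs_sub_comm, abs_of_nonneg (by linarith)]
    nlinarith
  unfold pa
  split_ifs with hs ht ht
  · exact e1 s t
  · push Not at ht
    exact e4 s t hs ht
  · push Not at hs
    rw [dist_comm, abs_sub_comm]
    exact e4 t s ht hs
  · exact e2 s t

theorem pa_cont (hκ0 : 0 < κ) (hκ1 : κ < 1) {Y : Type} [TopologicalSpace Y] {g : Y → Z} (hg : Continuous g)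
    (hc1 : ContinuousOn (fun z : Z × ℝ => h₁ z.1 z.2) (U ×ˢ Icc (0 : ℝ) 1))
    (hc2 : ContinuousOn (fun z : Z × ℝ => h₂ z.1 z.2) (V ×ˢ Icc (0 : ℝ) 1))
    (hgU : ∀ y, g y ∈ U) (hgV : ∀ y, g y ∈ V)
    (h10 : ∀ z ∈ U, h₁ z 0 = F z) (h20 : ∀ z ∈ V, h₂ z 0 = F z) :
    Continuous fun z : Y × ℝ => pa h₁ h₂ κ (g z.1) z.2 := by
  unfold pa
  refine Continuous.if_le ?_ ?_ continuous_snd continuous_const ?_
  · have h : Continuous fun z : Y × ℝ => ((g z.1, 1 - cl (z.2 / κ)) : Z × ℝ) :=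
      (hg.comp continuous_fst).prodMk (continuous_const.sub (continuous_cl.comp
        (continuous_snd.div_const _)))
    exact hc1.comp_continuous h fun z => ⟨hgU _, cl'_mem _⟩
  · have h : Continuous fun z : Y × ℝ => ((g z.1, cl ((z.2 - κ) / (1 - κ))) : Z × ℝ) :=
      (hg.comp continuous_fst).prodMk (continuous_cl.comp
        ((continuous_snd.sub continuous_const).div_const _))
    exact hc2.comp_continuous h fun z => ⟨hgV _, cl_mem _⟩
  · intro z hz
    rw [hz, div_self hκ0.ne', cl_of_ge le_rfl, sub_self, h10 _ (hgU _), sub_self, zero_div,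
      cl_of_le le_rfl, h20 _ (hgV _)]

end

theorem main (X : Type) [MetricSpace X] [CompactSpace X] {r : ℝ} (hr : 0 < r) (hX : GeodSpace X)
    (hUq : UniqGeod X r) (Z : Type) [TopologicalSpace Z] [NormalSpace Z] (F : C(Z, X))
    (hF : ¬ F.Nullhomotopic) {U V : Set Z} (hUo : IsOpen U) (hVo : IsOpen V)
    (hUV : U ∪ V = univ) {p q : X} {ℓ₁ ℓ₂ : ℝ} (hℓ₁ : 0 < ℓ₁) (hℓ₂ : 0 < ℓ₂)
    (h₁ : Contracts F U p ℓ₁) (h₂ : Contracts F V q ℓ₂) : ClosedGeod X (2 * (ℓ₁ + ℓ₂)) := by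
  by_contra hno
  apply hF
  obtain ⟨m, hm⟩ := Pool.Agent.Y467.GE.t_MG X r hr hX hUq
  obtain ⟨h₁, hc1, hh1⟩ := h₁
  obtain ⟨h₂, hc2, hh2⟩ := h₂
  set ℓ := ℓ₁ + ℓ₂ with hℓ
  have hℓ0 : 0 < ℓ := by positivity
  set κ := ℓ₁ / ℓ with hκ
  have hκ0 : 0 < κ := by positivity
  have hκ1 : κ < 1 := by
    rw [hκ, div_lt_one hℓ0]
    linarith
  have e1 : ℓ₁ = κ * ℓ := by
    rw [hκ, div_mul_cancel₀ _ hℓ0.ne']
  have e2 : ℓ₂ = (1 - κ) * ℓ := by
    rw [sub_mul, ← e1]
    linarith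
  -- the function which separates the two sets
  obtain ⟨φ, hφ0, hφ1, hφ⟩ := exists_continuous_zero_one_of_isClosed (s := Vᶜ) (t := Uᶜ)
    hVo.isClosed_compl hUo.isClosed_compl (by
      rw [Set.disjoint_left]
      intro z hz hz'
      have : z ∈ U ∪ V := by rw [hUV]; exact mem_univ _
      rcases this with h | h
      · exact hz' h
      · exact hz h)
  have hφU : ∀ z, φ z < 1 → z ∈ U := fun z hz => by
    by_contra h
    have := hφ1 h
    simp at this
    linarith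
  have hφV : ∀ z, 0 < φ z → z ∈ V := fun z hz => by
    by_contra h
    have := hφ0 h
    simp at this
    linarith
  set ψ : Z → ℝ := fun z => cl (3 * φ z - 1) with hψ
  have hψc : Continuous ψ := continuous_cl.comp ((continuous_const.mul φ.continuous).sub
    continuous_const)
  have hψ0 : ∀ z, φ z ≤ 1 / 3 → ψ z = 0 := fun z hz => cl_of_le (by linarith)
  have hψ1 : ∀ z, 2 / 3 ≤ φ z → ψ z = 1 := fun z hz => cl_of_ge (by linarith)
  have hψU : ∀ z, ψ z < 1 → z ∈ U := fun z hz => by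
    apply hφU
    by_contra h
    have := hψ1 z (by linarith)
    linarith
  have hψV : ∀ z, 0 < ψ z → z ∈ V := fun z hz => by
    apply hφV
    by_contra h
    have := hψ0 z (by linarith)
    linarith
  set a : Z → ℝ → X := pa h₁ h₂ κ with ha
  set C : Set Z := {z | 1 / 3 ≤ φ z ∧ φ z ≤ 2 / 3} with hC
  have hCU : ∀ z ∈ C, z ∈ U := fun z hz => hφU z (by linarith [hz.2])
  have hCV : ∀ z ∈ C, z ∈ V := fun z hz => hφV z (by linarith [hz.1])
  have hac : Continuous fun z : ↥C × ℝ => a z.1 z.2 :=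
    pa_cont (F := F) hκ0 hκ1 continuous_subtype_val hc1 hc2 (fun y => hCU _ y.2) (fun y => hCV _ y.2)
      (fun z hz => (hh1 z hz).1) (fun z hz => (hh2 z hz).1)
  have ha0 : ∀ z ∈ U, ∀ t ≤ 0, a z t = p := fun z hz t ht => pa_zero hκ0 (hh1 z hz).2.1 ht
  have ha1 : ∀ z ∈ V, ∀ t, 1 ≤ t → a z t = q := fun z hz t ht => pa_one hκ1 (hh2 z hz).2.1 ht
  have haL : ∀ z ∈ C, ∀ s t, dist (a z s) (a z t) ≤ ℓ * |s - t| := fun z hz s t =>
    pa_lip (F := F) hκ0 hκ1 e1 e2 hℓ0.le (hh1 z (hCU z hz)).1 (hh2 z (hCV z hz)).1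
      (hh1 z (hCU z hz)).2.2 (hh2 z (hCV z hz)).2.2 s t
  -- the reference path
  obtain ⟨β, hβc, hβ0, hβ1, hβ⟩ : ∃ β : ℝ → X, Continuous β ∧ (∀ t ≤ 0, β t = p) ∧
      (∀ t, 1 ≤ t → β t = q) ∧ (C.Nonempty → ∀ s t, dist (β s) (β t) ≤ ℓ * |s - t|) := by
    rcases C.eq_empty_or_nonempty with hemp | ⟨y, hy⟩
    · obtain ⟨c, hc0, hc1', hc⟩ := hX p q
      refine ⟨fun t => c (cl t), ?_, fun t ht => ?_, fun t ht => ?_, fun h => ?_⟩
      · have : ContinuousOn c (Icc 0 1) := by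
          have hL : LipschitzOnWith (nndist p q) c (Icc 0 1) := by
            refine LipschitzOnWith.of_dist_le_mul fun s hs t ht => ?_
            rw [hc s hs t ht, Real.dist_eq, coe_nndist, mul_comm]
          exact hL.continuousOn
        exact this.comp_continuous continuous_cl fun t => cl_mem t
      · dsimp only
        rw [cl_of_le ht, hc0]
      · dsimp only
        rw [cl_of_ge ht, hc1']
      · rw [hemp] at h
        exact absurd h Set.not_nonempty_empty
    · refine ⟨a y, ?_, ha0 y (hCU y hy), ha1 y (hCV y hy), fun _ => haL y hy⟩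
      exact hac.comp (f := fun t : ℝ => (((⟨y, hy⟩ : ↥C), t) : ↥C × ℝ))
        (continuous_const.prodMk continuous_id)
  -- the homotopy of the paths
  obtain ⟨M, hM⟩ := exists_nat_gt (4 * ℓ / r)
  have hM0 : (0 : ℝ) < M := lt_trans (by positivity) hM
  have hM1 : 0 < M := by exact_mod_cast hM0
  have hMr : 2 * (ℓ / M) ≤ r / 2 := by
    rw [div_lt_iff₀ hr] at hM
    rw [← mul_div_assoc, div_le_iff₀ hM0]
    linarith
  have : NeZero (2 * M) := ⟨by omega⟩
  have hPol : PolC X (2 * M) (ℓ / M) := by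
    have h0 : 0 < ℓ / M := by positivity
    refine Pool.Agent.Q186.CA.polC_of_no hm hno (2 * M) h0 (by linarith) ?_
    push_cast
    rw [mul_assoc, mul_div_cancel₀ _ hM0.ne']
  have hpath := path_htp (Y := ↥C) (a := fun y t => a y t) (b := fun _ t => β t) hm (by linarith) hM1
    hℓ0.le hMr hPol hac (hβc.comp continuous_snd) (fun y => ha0 y (hCU _ y.2))
    (fun y => ha1 y (hCV _ y.2)) (fun y => haL y y.2) (fun _ => hβ0) (fun _ => hβ1)
    (fun y => hβ ⟨y, y.2⟩)
  obtain ⟨K, hK1, -, hK3, hK4, hK5⟩ := hpath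
  -- the map
  have hclκ : IsClosed {z : Z | ψ z ≤ κ} := isClosed_le hψc continuous_const
  have hclκ' : IsClosed {z : Z | κ ≤ ψ z} := isClosed_le continuous_const hψc
  set H₁ : Z → ℝ → X := fun z s => if ψ z ≤ κ then h₁ z (s * (1 - cl (ψ z / κ))) else
    h₂ z (s * cl ((ψ z - κ) / (1 - κ))) with hH₁
  have hH₁c : ContinuousOn (fun z : Z × ℝ => H₁ z.1 z.2) (univ ×ˢ Icc (0 : ℝ) 1) := by
    have hs : (univ ×ˢ Icc (0 : ℝ) 1 : Set (Z × ℝ)) =
        ({z : Z | ψ z ≤ κ} ×ˢ Icc (0 : ℝ) 1) ∪ ({z : Z | κ ≤ ψ z} ×ˢ Icc (0 : ℝ) 1) := by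
      rw [← union_prod]
      congr 1
      ext z
      simp [le_total]
    rw [hs]
    refine ContinuousOn.union_of_isClosed ?_ ?_ (hclκ.prod isClosed_Icc) (hclκ'.prod isClosed_Icc)
    · have h3 : ContinuousOn (fun z : Z × ℝ => ((z.1, z.2 * (1 - cl (ψ z.1 / κ))) : Z × ℝ))
          ({z : Z | ψ z ≤ κ} ×ˢ Icc (0 : ℝ) 1) := by
        refine Continuous.continuousOn (continuous_fst.prodMk (continuous_snd.mul
          (continuous_const.sub (continuous_cl.comp ?_))))
        exact (hψc.comp continuous_fst).div_const _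
      refine (hc1.comp h3 ?_).congr ?_
      · rintro ⟨z, s⟩ ⟨hz, hs⟩
        refine ⟨hψU z (lt_of_le_of_lt hz hκ1), mul_nonneg hs.1 (cl'_mem _).1, ?_⟩
        exact mul_le_one₀ hs.2 (cl'_mem _).1 (cl'_mem _).2
      · rintro ⟨z, s⟩ ⟨hz, hs⟩
        exact if_pos hz
    · have h3 : ContinuousOn (fun z : Z × ℝ => ((z.1, z.2 * cl ((ψ z.1 - κ) / (1 - κ))) : Z × ℝ))
          ({z : Z | κ ≤ ψ z} ×ˢ Icc (0 : ℝ) 1) := by
        refine Continuous.continuousOn (continuous_fst.prodMk (continuous_snd.mul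
          (continuous_cl.comp ?_)))
        exact ((hψc.comp continuous_fst).sub continuous_const).div_const _
      refine (hc2.comp h3 ?_).congr ?_
      · rintro ⟨z, s⟩ ⟨hz, hs⟩
        refine ⟨hψV z (lt_of_lt_of_le hκ0 hz), mul_nonneg hs.1 (cl_mem _).1, ?_⟩
        exact mul_le_one₀ hs.2 (cl_mem _).1 (cl_mem _).2
      · rintro ⟨z, s⟩ ⟨hz, hs⟩
        dsimp only [Function.comp_def]
        by_cases h4 : ψ z ≤ κ
        · have h5 : ψ z = κ := le_antisymm h4 hz
          rw [hH₁]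
          dsimp only
          rw [if_pos h4, h5, div_self hκ0.ne', cl_of_ge le_rfl, sub_self, sub_self, zero_div,
            cl_of_le le_rfl, mul_zero, (hh1 z (hψU z (by linarith))).1,
            (hh2 z (hψV z (by linarith))).1]
        · exact if_neg h4
  have hH₁0 : ∀ z, H₁ z 0 = F z := by
    intro z
    rw [hH₁]
    dsimp only
    split_ifs with h
    · rw [zero_mul, (hh1 z (hψU z (by linarith))).1]
    · push Not at h
      rw [zero_mul, (hh2 z (hψV z (by linarith))).1]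
  have hH₁1 : ∀ z, H₁ z 1 = a z (ψ z) := by
    intro z
    rw [hH₁, ha]
    dsimp only
    rw [pa, one_mul, one_mul]
  have hf₁c : Continuous fun z => a z (ψ z) := by
    have h3 : Continuous fun z : Z => ((z, (1 : ℝ)) : Z × ℝ) := continuous_id.prodMk continuous_const
    refine (hH₁c.comp_continuous h3 fun z => ⟨mem_univ _, zero_le_one, le_rfl⟩).congr fun z => ?_
    exact hH₁1 z
  have hf₂c : Continuous fun z => β (ψ z) := hβc.comp hψc
  have s1 : F.Homotopic ⟨fun z => a z (ψ z), hf₁c⟩ := homotopic_of H₁ hH₁c hH₁0 hH₁1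
  classical
  have s2 : ContinuousMap.Homotopic (⟨fun z => a z (ψ z), hf₁c⟩ : C(Z, X)) ⟨fun z => β (ψ z), hf₂c⟩ := by
    refine homotopic_of (fun z s => if h : z ∈ C then K (⟨z, h⟩, ψ z) s else a z (ψ z)) ?_ ?_ ?_
    · refine Continuous.continuousOn ?_
      have hcl0 : IsClosed {z : Z | φ z ≤ 1 / 3} := isClosed_le φ.continuous continuous_const
      have hcl1 : IsClosed {z : Z | 2 / 3 ≤ φ z} := isClosed_le continuous_const φ.continuous
      have hclC : IsClosed C := (isClosed_le continuous_const φ.continuous).inter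
        (isClosed_le φ.continuous continuous_const)
      have hp : ContinuousOn (fun z : Z × ℝ => if h : z.1 ∈ C then K (⟨z.1, h⟩, ψ z.1) z.2 else
          a z.1 (ψ z.1)) (Prod.fst ⁻¹' {z : Z | φ z ≤ 1 / 3}) := by
        refine (continuousOn_const (c := p)).congr ?_
        rintro ⟨z, s⟩ hz
        have hz' : φ z ≤ 1 / 3 := hz
        have hzU := hφU z (by linarith)
        dsimp only
        split_ifs with h
        · rw [hK5 _ (Or.inl (hψ0 z hz').le), hψ0 z hz']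
          exact ha0 z hzU 0 le_rfl
        · rw [hψ0 z hz', ha0 z hzU 0 le_rfl]
      have hq : ContinuousOn (fun z : Z × ℝ => if h : z.1 ∈ C then K (⟨z.1, h⟩, ψ z.1) z.2 else
          a z.1 (ψ z.1)) (Prod.fst ⁻¹' {z : Z | 2 / 3 ≤ φ z}) := by
        refine (continuousOn_const (c := q)).congr ?_
        rintro ⟨z, s⟩ hz
        have hz' : 2 / 3 ≤ φ z := hz
        have hzV := hφV z (by linarith)
        dsimp only
        split_ifs with h
        · rw [hK5 _ (Or.inr (hψ1 z hz').ge), hψ1 z hz']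
          exact ha1 z hzV 1 le_rfl
        · rw [hψ1 z hz', ha1 z hzV 1 le_rfl]
      have hcC : ContinuousOn (fun z : Z × ℝ => if h : z.1 ∈ C then K (⟨z.1, h⟩, ψ z.1) z.2 else
          a z.1 (ψ z.1)) (Prod.fst ⁻¹' C) := by
        rw [continuousOn_iff_continuous_restrict]
        have h3 : Continuous fun z : ↥(Prod.fst ⁻¹' C : Set (Z × ℝ)) =>
            (((⟨z.1.1, z.2⟩ : ↥C), ψ z.1.1), z.1.2) := by
          refine Continuous.prodMk (Continuous.prodMk (Continuous.subtype_mk ?_ _) ?_) ?_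
          · exact continuous_fst.comp continuous_subtype_val
          · exact hψc.comp (continuous_fst.comp continuous_subtype_val)
          · exact continuous_snd.comp continuous_subtype_val
        refine (hK1.comp h3).congr ?_
        rintro ⟨⟨z, s⟩, hz⟩
        change _ = (if h : z ∈ C then K (⟨z, h⟩, ψ z) s else a z (ψ z))
        rw [dif_pos (show z ∈ C from hz)]
        rfl
      rw [← continuousOn_univ]
      have hs : (univ : Set (Z × ℝ)) = (Prod.fst ⁻¹' {z : Z | φ z ≤ 1 / 3} ∪ Prod.fst ⁻¹' C) ∪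
          Prod.fst ⁻¹' {z : Z | 2 / 3 ≤ φ z} := by
        ext ⟨z, s⟩
        simp only [mem_univ, mem_union, mem_preimage, mem_setOf_eq, hC, true_iff]
        rcases le_total (φ z) (1 / 3) with h | h
        · exact Or.inl (Or.inl h)
        · rcases le_total (φ z) (2 / 3) with h' | h'
          · exact Or.inl (Or.inr ⟨h, h'⟩)
          · exact Or.inr h'
      rw [hs]
      exact (hp.union_of_isClosed hcC (hcl0.preimage continuous_fst)
        (hclC.preimage continuous_fst)).union_of_isClosed hq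
        ((hcl0.preimage continuous_fst).union (hclC.preimage continuous_fst))
        (hcl1.preimage continuous_fst)
    · intro z
      dsimp only [ContinuousMap.coe_mk]
      split_ifs with h
      · rw [hK3 _ _ le_rfl]
      · rfl
    · intro z
      dsimp only [ContinuousMap.coe_mk]
      split_ifs with h
      · rw [hK4 _ _ le_rfl]
      · rcases le_total (φ z) (1 / 3) with h' | h'
        · rw [hψ0 z h', ha0 z (hφU z (by linarith)) 0 le_rfl, hβ0 0 le_rfl]
        · have h'' : 2 / 3 ≤ φ z := by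
            by_contra h3
            exact h ⟨h', by linarith⟩
          rw [hψ1 z h'', ha1 z (hφV z (by linarith)) 1 le_rfl, hβ1 1 le_rfl]
  have s3 : ContinuousMap.Homotopic (⟨fun z => β (ψ z), hf₂c⟩ : C(Z, X)) (ContinuousMap.const Z p) := by
    refine homotopic_of (fun z s => β ((1 - s) * ψ z)) ?_ ?_ ?_
    · exact (hβc.comp ((continuous_const.sub continuous_snd).mul
        (hψc.comp continuous_fst))).continuousOn
    · intro z
      simp
    · intro z
      simp [hβ0 0 le_rfl]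
  exact ⟨p, (s1.trans s2).trans s3⟩

end Pool.Agent.Q186.LS
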