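import Pool.Agent.Q186.LS.Fill

/-!
# Two families of short paths with the same end points are homotopic
-/

set_option autoImplicit false

open Set Topology

namespace Pool.Agent.Q186.LS

open Pool.Agent.Y489.GE

theorem htp_symm {Y W : Type} [TopologicalSpace Y] [TopologicalSpace W] {T : Set W}
    {Z : Set Y} {f g : Y → W} (h : Htp T Z f g) : Htp T Z g f := by
  obtain ⟨H, h1, h2, h3, h4, h5⟩ := h
  refine ⟨fun y s => H y (1 - s), ?_, fun y s => h2 _ _, fun y s hs => h4 _ _ (by linarith),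
    fun y s hs => h3 _ _ (by linarith), fun y hy s => ?_⟩
  · exact h1.comp (continuous_fst.prodMk (continuous_const.sub continuous_snd))
  · dsimp only
    rw [h5 y hy, ← h5 y hy 1, h4 y 1 le_rfl]

variable {X : Type} [MetricSpace X] {m : X → X → ℝ → X} {ρ ℓ : ℝ} {M : ℕ} {p q : X}

/-- the time along a track -/
noncomputable def sg (t : ℝ) : ℝ := min (min (3 * t) 1) (3 * (1 - t))

theorem continuous_sg : Continuous sg := by
  unfold sg
  fun_prop

/-- a family of paths is homotopic to the family of the paths which run along the track of the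
first vertex, the curve at the end, and back along the track of the last vertex -/
theorem half {Y : Type} [TopologicalSpace Y] (hm : GMap X ρ m) (hρ0 : 0 ≤ ρ) (hM : 0 < M) (hℓ : 0 ≤ ℓ)
    (hρ : 2 * (ℓ / M) ≤ ρ) {a : Y → ℝ → X} (hac : Continuous fun z : Y × ℝ => a z.1 z.2)
    (ha0 : ∀ y, ∀ t ≤ 0, a y t = p) (ha1 : ∀ y, ∀ t, 1 ≤ t → a y t = q)
    (haL : ∀ y s t, dist (a y s) (a y t) ≤ ℓ * |s - t|) {U : Y → ℝ → ℕ → X}
    (hUc : ∀ i, Continuous fun z : Y × ℝ => U z.1 z.2 i)
    (hUd : ∀ y σ i, dist (U y σ i) (U y σ (i + 1)) ≤ ℓ / M)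
    (hU0 : ∀ y σ, σ ≤ 0 → ∀ i ≤ M, U y σ i = a y ((i : ℝ) / M)) :
    Htp (Y := Y × ℝ) (W := X) univ {z | z.2 ≤ 0 ∨ 1 ≤ z.2} (fun z => a z.1 z.2)
      (fun z => fill m (U z.1 (sg z.2)) M (M * cl (3 * z.2 - 1))) := by
  have hM0 : (0 : ℝ) < M := by exact_mod_cast hM
  have hδ0 : 0 ≤ ℓ / M := by positivity
  have hδρ : ℓ / M ≤ ρ := by linarith
  have hUρ : ∀ y σ, ∀ i < M, dist (U y σ i) (U y σ (i + 1)) ≤ ρ := fun y σ i _ =>
    (hUd y σ i).trans hδρ
  have hU00 : ∀ y σ, σ ≤ 0 → U y σ 0 = p := fun y σ hσ => by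
    rw [hU0 y σ hσ 0 (Nat.zero_le _), Nat.cast_zero, zero_div, ha0 y 0 le_rfl]
  have hU01 : ∀ y σ, σ ≤ 0 → U y σ M = q := fun y σ hσ => by
    rw [hU0 y σ hσ M le_rfl, div_self hM0.ne', ha1 y 1 le_rfl]
  have hnear : ∀ y t, dist (a y t) (fill m (U y 0) M (M * t)) ≤ ρ := by
    intro y t
    rcases le_total t 1 with ht | ht
    · have h := fill_near hm (w := U y 0) (n := M) hδρ (fun i _ => hUd y 0 i)
        (a := fun u => a y (u / M)) ?_ ?_ ?_ hδ0 (M * t) (by nlinarith)
      · rw [mul_div_cancel_left₀ _ hM0.ne'] at h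
        exact h.trans hρ
      · intro i hi u h1 h2
        rw [hU0 y 0 le_rfl i hi.le]
        refine (haL _ _ _).trans ?_
        rw [← sub_div, abs_of_nonneg (div_nonneg (by linarith) hM0.le), mul_div_assoc']
        refine div_le_div_of_nonneg_right ?_ hM0.le
        nlinarith
      · intro u hu
        rw [ha0 y _ (div_nonpos_of_nonpos_of_nonneg hu hM0.le), hU00 y 0 le_rfl]
      · intro u hu
        rw [ha1 y _ ((one_le_div hM0).2 hu), hU01 y 0 le_rfl]
    · rw [fill_ge hm (hUρ y 0) (by nlinarith), ha1 y t ht, hU01 y 0 le_rfl, dist_self]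
      exact hρ0
  have hfc : Continuous fun z : (Y × ℝ) × ℝ =>
      fill m (U z.1.1 (z.2 * sg z.1.2)) M (M * ((1 - z.2) * z.1.2 + z.2 * cl (3 * z.1.2 - 1))) := by
    refine fill_cont hm (Y := (Y × ℝ) × ℝ) (w := fun z => U z.1.1 (z.2 * sg z.1.2)) ?_ ?_ ?_
    · intro i _
      exact (hUc i).comp ((continuous_fst.comp continuous_fst).prodMk
        (continuous_snd.mul (continuous_sg.comp (continuous_snd.comp continuous_fst))))
    · intro z i hi
      exact hUρ _ _ i hi
    · refine continuous_const.mul ((((continuous_const.sub continuous_snd).mul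
        (continuous_snd.comp continuous_fst))).add (continuous_snd.mul (continuous_cl.comp ?_)))
      exact (continuous_const.mul (continuous_snd.comp continuous_fst)).sub continuous_const
  have hf0 : Continuous fun z : Y × ℝ => fill m (U z.1 0) M (M * z.2) := by
    have := hfc.comp (f := fun z : Y × ℝ => ((z, (0 : ℝ)) : (Y × ℝ) × ℝ))
      (continuous_id.prodMk continuous_const)
    refine this.congr fun z => ?_
    simp
  refine Htp.trans (g := fun z => fill m (U z.1 0) M (M * z.2)) ?_ ?_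
  · refine Htp.of_clamp (fun z s => m (a z.1 z.2) (fill m (U z.1 0) M (M * z.2)) s) ?_
      (fun _ _ _ => mem_univ _) (fun z => hm.zero _ _ (hnear _ _)) (fun z => hm.one _ _ (hnear _ _)) ?_
    · have h2 : Continuous fun z : (Y × ℝ) × ℝ =>
          ((a z.1.1 z.1.2, fill m (U z.1.1 0) M (M * z.1.2), z.2) : X × X × ℝ) :=
        (hac.comp continuous_fst).prodMk ((hf0.comp continuous_fst).prodMk continuous_snd)
      exact hm.cont.comp h2.continuousOn fun z hz => ⟨hnear _ _, hz⟩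
    · rintro ⟨y, t⟩ hy s hs
      dsimp only at hy ⊢
      rcases hy with hy | hy
      · rw [ha0 y t hy, fill_le (by nlinarith), hU00 y 0 le_rfl, hm.self hρ0 p hs]
      · rw [ha1 y t hy, fill_ge hm (hUρ y 0) (by nlinarith), hU01 y 0 le_rfl, hm.self hρ0 q hs]
  · refine Htp.of_clamp (fun z s => fill m (U z.1 (s * sg z.2)) M
      (M * ((1 - s) * z.2 + s * cl (3 * z.2 - 1)))) hfc.continuousOn (fun _ _ _ => mem_univ _) ?_ ?_ ?_
    · intro z
      simp
    · intro z
      simp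
    · rintro ⟨y, t⟩ hy s hs
      dsimp only at hy ⊢
      rcases hy with hy | hy
      · have h1 : sg t ≤ 0 := (min_le_left _ _).trans ((min_le_left _ _).trans (by linarith))
        have h2 : s * sg t ≤ 0 := mul_nonpos_of_nonneg_of_nonpos hs.1 h1
        rw [fill_le, fill_le, hU00 _ _ h2, hU00 _ _ le_rfl]
        · nlinarith
        · rw [cl_of_le (by linarith)]
          have : (1 - s) * t ≤ 0 := mul_nonpos_of_nonneg_of_nonpos (by linarith [hs.2]) hy
          nlinarith
      · have h1 : sg t ≤ 0 := (min_le_right _ _).trans (by linarith)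
        have h2 : s * sg t ≤ 0 := mul_nonpos_of_nonneg_of_nonpos hs.1 h1
        rw [fill_ge hm (hUρ _ _), fill_ge hm (hUρ _ _), hU01 _ _ h2, hU01 _ _ le_rfl]
        · nlinarith
        · rw [cl_of_ge (by linarith)]
          have : 1 - s ≤ (1 - s) * t := by nlinarith [hs.2]
          nlinarith

/-- the closed curve which runs along `a` and back along `b` -/
noncomputable def cc (a b : ℝ → X) (t : ℝ) : X := if t ≤ 1 then a t else b (2 - t)

/-- the inscribed polygon -/
noncomputable def poly (a b : ℝ → X) (M : ℕ) : ZMod (2 * M) → X := fun i => cc a b ((i.val : ℝ) / M)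

section

variable {a b : ℝ → X}

theorem cc_dist (ha1 : ∀ t, 1 ≤ t → a t = q) (hb1 : ∀ t, 1 ≤ t → b t = q)
    (haL : ∀ s t, dist (a s) (a t) ≤ ℓ * |s - t|) (hbL : ∀ s t, dist (b s) (b t) ≤ ℓ * |s - t|)
    {s t : ℝ} (hst : s ≤ t) : dist (cc a b s) (cc a b t) ≤ ℓ * (t - s) := by
  unfold cc
  split_ifs with h1 h2 h2
  · refine (haL _ _).trans (le_of_eq ?_)
    rw [abs_sub_comm, abs_of_nonneg (by linarith)]
  · push Not at h2
    refine (dist_triangle _ (a 1) _).trans ?_
    have e1 := haL s 1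
    have e2 := hbL 1 (2 - t)
    rw [hb1 1 le_rfl, ← ha1 1 le_rfl] at e2
    rw [abs_sub_comm, abs_of_nonneg (by linarith)] at e1
    rw [abs_of_nonneg (by linarith)] at e2
    linarith
  · linarith
  · refine (hbL _ _).trans (le_of_eq ?_)
    rw [abs_of_nonneg (by linarith)]
    ring

theorem poly_cast (hM : 0 < M) (ha0 : ∀ t ≤ 0, a t = p) (hb0 : ∀ t ≤ 0, b t = p) {n : ℕ}
    (hn : n ≤ 2 * M) : poly a b M (n : ZMod (2 * M)) = cc a b ((n : ℝ) / M) := by
  have hM0 : (M : ℝ) ≠ 0 := by positivity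
  rcases hn.lt_or_eq with h | rfl
  · rw [poly, ZMod.val_natCast_of_lt h]
  · rw [poly, ZMod.natCast_self, ZMod.val_zero, Nat.cast_zero, zero_div]
    push_cast
    rw [mul_div_assoc, div_self hM0, cc, cc, if_pos zero_le_one, if_neg (by norm_num), ha0 0 le_rfl,
      hb0 _ (by norm_num)]

theorem poly_mem (hM : 0 < M) (ha0 : ∀ t ≤ 0, a t = p) (hb0 : ∀ t ≤ 0, b t = p)
    (ha1 : ∀ t, 1 ≤ t → a t = q) (hb1 : ∀ t, 1 ≤ t → b t = q)
    (haL : ∀ s t, dist (a s) (a t) ≤ ℓ * |s - t|) (hbL : ∀ s t, dist (b s) (b t) ≤ ℓ * |s - t|) :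
    poly a b M ∈ Pol X (2 * M) (ℓ / M) := by
  intro i
  have : NeZero (2 * M) := ⟨by omega⟩
  have hM0 : (0 : ℝ) < M := by positivity
  have hi : i.val < 2 * M := ZMod.val_lt i
  have e2 : i + 1 = ((i.val + 1 : ℕ) : ZMod (2 * M)) := by
    push_cast
    rw [ZMod.natCast_zmod_val]
  rw [e2, poly_cast hM ha0 hb0 (by omega)]
  refine (cc_dist ha1 hb1 haL hbL (s := (i.val : ℝ) / M) ?_).trans (le_of_eq ?_)
  · push_cast
    gcongr
    linarith
  · push_cast
    ring

theorem poly_up (hM : 0 < M) (ha0 : ∀ t ≤ 0, a t = p) (hb0 : ∀ t ≤ 0, b t = p) {i : ℕ}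
    (hi : i ≤ M) : poly a b M (i : ZMod (2 * M)) = a ((i : ℝ) / M) := by
  have hM0 : (0 : ℝ) < M := by positivity
  rw [poly_cast hM ha0 hb0 (by omega), cc, if_pos]
  rw [div_le_one hM0]
  exact_mod_cast hi

theorem poly_dn (hM : 0 < M) (ha0 : ∀ t ≤ 0, a t = p) (hb0 : ∀ t ≤ 0, b t = p)
    (ha1 : ∀ t, 1 ≤ t → a t = q) (hb1 : ∀ t, 1 ≤ t → b t = q) {i : ℕ}
    (hi : i ≤ M) : poly a b M (-(i : ZMod (2 * M))) = b ((i : ℝ) / M) := by
  have hM0 : (0 : ℝ) < M := by positivity
  have e : -(i : ZMod (2 * M)) = ((2 * M - i : ℕ) : ZMod (2 * M)) := by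
    rw [Nat.cast_sub (by omega), ZMod.natCast_self, zero_sub]
  have e1 : ((2 * M - i : ℕ) : ℝ) / M = 2 - (i : ℝ) / M := by
    rw [Nat.cast_sub (by omega)]
    push_cast
    rw [sub_div, mul_div_assoc, div_self hM0.ne', mul_one]
  have h1 : (i : ℝ) / M ≤ 1 := by
    rw [div_le_one hM0]
    exact_mod_cast hi
  rw [e, poly_cast hM ha0 hb0 (by omega), e1, cc]
  split_ifs with h
  · rw [ha1 _ (by linarith), hb1 _ (by linarith)]
  · rw [sub_sub_cancel]

end

theorem path_htp {Y : Type} [TopologicalSpace Y] (hm : GMap X ρ m) (hρ0 : 0 ≤ ρ) (hM : 0 < M)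
    (hℓ : 0 ≤ ℓ) (hρ : 2 * (ℓ / M) ≤ ρ) (hP : PolC X (2 * M) (ℓ / M)) {a b : Y → ℝ → X}
    (hac : Continuous fun z : Y × ℝ => a z.1 z.2) (hbc : Continuous fun z : Y × ℝ => b z.1 z.2)
    (ha0 : ∀ y, ∀ t ≤ 0, a y t = p) (ha1 : ∀ y, ∀ t, 1 ≤ t → a y t = q)
    (haL : ∀ y s t, dist (a y s) (a y t) ≤ ℓ * |s - t|)
    (hb0 : ∀ y, ∀ t ≤ 0, b y t = p) (hb1 : ∀ y, ∀ t, 1 ≤ t → b y t = q)
    (hbL : ∀ y s t, dist (b y s) (b y t) ≤ ℓ * |s - t|) :
    Htp (Y := Y × ℝ) (W := X) univ {z | z.2 ≤ 0 ∨ 1 ≤ z.2} (fun z => a z.1 z.2)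
      (fun z => b z.1 z.2) := by
  obtain ⟨c, H, h1, h2, h3, h4, -⟩ := hP
  have hM0 : (0 : ℝ) < M := by exact_mod_cast hM
  have hmem : ∀ y, poly (a y) (b y) M ∈ Pol X (2 * M) (ℓ / M) := fun y =>
    poly_mem hM (ha0 y) (hb0 y) (ha1 y) (hb1 y) (haL y) (hbL y)
  set v : Y → ↥(Pol X (2 * M) (ℓ / M)) := fun y => ⟨poly (a y) (b y) M, hmem y⟩ with hv
  have hvc : Continuous v := by
    refine Continuous.subtype_mk (continuous_pi fun i => ?_) _
    by_cases h : (i.val : ℝ) / M ≤ 1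
    · simp only [poly, cc, if_pos h]
      exact hac.comp (continuous_id.prodMk continuous_const)
    · simp only [poly, cc, if_neg h]
      exact hbc.comp (continuous_id.prodMk continuous_const)
  have hHc : ∀ j : ZMod (2 * M), Continuous fun z : Y × ℝ => H (v z.1) z.2 j := fun j =>
    (continuous_apply j).comp (h1.comp ((hvc.comp continuous_fst).prodMk continuous_snd))
  have hup := half hm hρ0 hM hℓ hρ hac ha0 ha1 haL (U := fun y σ i => H (v y) σ (i : ZMod (2 * M)))
    (fun i => hHc _) (fun y σ i => by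
      have := h2 (v y) σ (i : ZMod (2 * M))
      push_cast
      exact this) (fun y σ hσ i hi => by
      rw [h3 _ _ hσ]
      exact poly_up hM (ha0 y) (hb0 y) hi)
  have hdn := half hm hρ0 hM hℓ hρ hbc hb0 hb1 hbL (U := fun y σ i => H (v y) σ (-(i : ZMod (2 * M))))
    (fun i => hHc _) (fun y σ i => by
      have := h2 (v y) σ (-(i : ZMod (2 * M)) - 1)
      push_cast
      rw [dist_comm, neg_add, ← sub_eq_add_neg]
      rwa [sub_add_cancel] at this) (fun y σ hσ i hi => by
      rw [h3 _ _ hσ]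
      exact poly_dn hM (ha0 y) (hb0 y) (ha1 y) (hb1 y) hi)
  have heq : (fun z : Y × ℝ => fill m (fun i => H (v z.1) (sg z.2) (i : ZMod (2 * M))) M
      (M * cl (3 * z.2 - 1))) = fun z : Y × ℝ =>
      fill m (fun i => H (v z.1) (sg z.2) (-(i : ZMod (2 * M)))) M (M * cl (3 * z.2 - 1)) := by
    funext z
    have hρ' : ∀ j k : ZMod (2 * M), k = j + 1 → dist (H (v z.1) (sg z.2) j) (H (v z.1) (sg z.2) k) ≤ ρ := by
      rintro j k rfl
      have : ℓ / M ≤ ρ := by
        have : 0 ≤ ℓ / M := by positivity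
        linarith
      exact (h2 (v z.1) (sg z.2) j).trans this
    rcases le_or_gt (3 * z.2) 1 with h5 | h5
    · rw [fill_le, fill_le]
      · simp
      · rw [cl_of_le (by linarith), mul_zero]
      · rw [cl_of_le (by linarith), mul_zero]
    · rcases le_or_gt 2 (3 * z.2) with h6 | h6
      · rw [fill_ge hm, fill_ge hm]
        · congr 1
          rw [eq_neg_iff_add_eq_zero, ← two_mul]
          have : ((2 * M : ℕ) : ZMod (2 * M)) = 0 := ZMod.natCast_self _
          push_cast at this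
          exact this
        · intro i _
          rw [dist_comm]
          refine hρ' _ _ ?_
          push_cast
          ring
        · rw [cl_of_ge (by linarith), mul_one]
        · intro i _
          refine hρ' _ _ ?_
          push_cast
          ring
        · rw [cl_of_ge (by linarith), mul_one]
      · refine fill_congr (fun i _ => ?_) _
        have h7 : 1 ≤ sg z.2 := le_min (le_min h5.le le_rfl) (by linarith)
        rw [h4 _ _ h7]
  rw [heq] at hup
  exact hup.trans (htp_symm hdn)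

end Pool.Agent.Q186.LS
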